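import Pool.Agent.Lib.A8780.Final

/-!
A linear bound for partitioning a highly strong tournament into `k`-strong parts with prescribed
vertices.
-/

set_option autoImplicit false

namespace Pool.Agent.Results.MP_a8780a_co.LinearBound

/-- `D` is a tournament: there are no loops and each pair of distinct vertices is joined by
exactly one arc. -/
def IsTournament {V : Type*} (D : Digraph V) : Prop :=
  (∀ v, ¬ D.Adj v v) ∧
    ∀ u v, u ≠ v → (D.Adj u v ∧ ¬ D.Adj v u) ∨ (D.Adj v u ∧ ¬ D.Adj u v)

/-- The subdigraph of `D` induced on `S` is strongly connected: from each vertex of `S` there is a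
directed walk inside `S` to each vertex of `S`. -/
def StronglyConnectedOn {V : Type*} (D : Digraph V) (S : Set V) : Prop :=
  ∀ u ∈ S, ∀ v ∈ S, Relation.ReflTransGen (fun a b => a ∈ S ∧ b ∈ S ∧ D.Adj a b) u v

/-- The subdigraph of `D` induced on `S` is `k`-strong (for `k ≥ 1`): it has at least `k + 1`
vertices, and it stays strongly connected when a set `X` of at most `k - 1` vertices is
deleted. -/
def KStrongOn {V : Type*} (D : Digraph V) (k : ℕ) (S : Finset V) : Prop :=
  k + 1 ≤ S.card ∧
    ∀ X : Finset V, X ⊆ S → X.card ≤ k - 1 → StronglyConnectedOn D ((S : Set V) \ (X : Set V))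

/-- There is a natural number `C` such that for all positive `k` and `t` and every `s ≥ C k t`, for
every finite `s`-strong tournament `T` and all pairwise disjoint sets `X 0, …, X (t - 1)` of at
most `k` vertices each, the vertex set has a partition into sets `P 0, …, P (t - 1)` such that
each `P i` contains `X i` and induces a `k`-strong tournament. -/
theorem result : ∃ C : ℕ, ∀ k t s : ℕ, 0 < k → 0 < t → C * k * t ≤ s →
    ∀ (V : Type*) [Fintype V] (T : Digraph V), IsTournament T → KStrongOn T s Finset.univ →
      ∀ X : Fin t → Finset V, (∀ i j, i ≠ j → Disjoint (X i) (X j)) → (∀ i, (X i).card ≤ k) →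
        ∃ P : Fin t → Finset V,
          (∀ i j, i ≠ j → Disjoint (P i) (P j)) ∧ (∀ v, ∃ i, v ∈ P i) ∧
            (∀ i, X i ⊆ P i) ∧ ∀ i, KStrongOn T k (P i) := by
  classical
  refine ⟨1200000000, ?_⟩
  intro k t s hk ht hs V _ T hT hstr X hX hXk
  have hTour : Pool.Agent.Lib.A8780.Tour T.Adj :=
    { irr := hT.1
      asym := by
        intro u v huv hvu
        have hne : u ≠ v := by
          rintro rfl
          exact hT.1 _ huv
        rcases hT.2 u v hne with h | h
        · exact h.2 hvu
        · exact h.2 huv
      tot := by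
        intro u v hne
        rcases hT.2 u v hne with h | h
        · exact Or.inl h.1
        · exact Or.inr h.1 }
  have hassoc : 1200000000 * (k * t) = 1200000000 * k * t := by ring
  have hpos : 0 < 1200000000 * k * t := by positivity
  have hK : Pool.Agent.Lib.A8780.KStrong T.Adj (1200000000 * (k * t))
      (Finset.univ : Finset V) := by
    rw [hassoc]
    refine ⟨by have := hstr.1; omega, ?_⟩
    intro Y hY u _ v _ huY hvY
    have h1 := hstr.2 Y (Finset.subset_univ _) (by omega) u (by simp [huY]) v (by simp [hvY])
    have h2 : {w | w ∈ (Finset.univ : Finset V) ∧ w ∉ Y} =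
        ((Finset.univ : Finset V) : Set V) \ (Y : Set V) := by
      ext w; simp
    rw [h2]
    exact h1
  obtain ⟨φ, h1, h2⟩ := Pool.Agent.Lib.A8780.linear hTour hk ht hK X hX hXk
  refine ⟨fun i => Finset.univ.filter (fun v => φ v = i), ?_, ?_, ?_, ?_⟩
  · intro i j hij
    rw [Finset.disjoint_left]
    intro v hv hv'
    rw [Finset.mem_filter] at hv hv'
    exact hij (hv.2.symm.trans hv'.2)
  · intro v
    exact ⟨φ v, by simp⟩
  · intro i v hv
    simp [h1 i v hv]
  · intro i
    refine ⟨(h2 i).1, ?_⟩
    intro Y _ hY u hu v hv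
    have hu' : u ∈ Finset.univ.filter (fun v => φ v = i) ∧ u ∉ Y := by
      simpa using hu
    have hv' : v ∈ Finset.univ.filter (fun v => φ v = i) ∧ v ∉ Y := by
      simpa using hv
    have h3 := (h2 i).2 Y (by omega) u hu'.1 v hv'.1 hu'.2 hv'.2
    have h4 : {w | w ∈ Finset.univ.filter (fun v => φ v = i) ∧ w ∉ Y} =
        ((Finset.univ.filter (fun v => φ v = i) : Finset V) : Set V) \ (Y : Set V) := by
      ext w; simp
    rw [h4] at h3
    exact h3

end Pool.Agent.Results.MP_a8780a_co.LinearBound
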